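import Pool.Agent.R460.SQ.Fin

set_option autoImplicit false

namespace Pool.Agent.Results.MP_d48457_nt.EveryModulus

open Finset

/-- The number of residues `m` modulo `p` with `m² ≡ n (mod p)`. -/
def roots (n p : ℕ) : ℕ := ((range p).filter (fun m : ℕ => (p : ℤ) ∣ (n : ℤ) - (m : ℤ) ^ 2)).card

/-- The singular series of `n = p + m²`, truncated at `z`: the product of
`(1 - roots/p) / (1 - 1/p)` over the primes `p ≤ z`. -/
noncomputable def Sing (n z : ℕ) : ℝ :=
  ∏ p ∈ (Icc 1 z).filter Nat.Prime, (1 - (roots n p : ℝ) / p) / (1 - 1 / (p : ℝ))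

/-- The sum of `log p` over the solutions of `n = p + m²` with `p` prime and `1 ≤ m ≤ y`. -/
noncomputable def Rep (n y : ℕ) : ℝ :=
  ∑ m ∈ Icc 1 y, if (n - m ^ 2).Prime then Real.log ((n - m ^ 2 : ℕ) : ℝ) else 0

/-- The conclusion for one integer `n`: it is the sum of a prime and a square, and for every `y`
with `y² < n` the number of the solutions with `1 ≤ m ≤ y` is the expected one. -/
def Good (C N z n : ℕ) : Prop :=
  (∃ p m : ℕ, p.Prime ∧ n = p + m ^ 2) ∧
  ∀ y : ℕ, y ^ 2 < n → |Rep n y - Sing n z * y| ≤ Real.sqrt N / Real.log N ^ C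

open Classical in
/-- The number of the `n ≤ N` with `n ≡ b (mod q)` for which the conclusion fails. -/
noncomputable def exceptions (C N z q b : ℕ) : ℕ :=
  ((Icc 1 N).filter (fun n => n ≡ b [MOD q] ∧ ¬ Good C N z n)).card

/-- In every residue class of every modulus `q ≤ N^(1/2-ρ)` with few divisors all but
`N / (q log^A N)` of the integers up to `N` are sums of a prime and a square, with the expected
number of representations. -/
theorem result (ρ : ℝ) (hρ : 0 < ρ) (A C T : ℕ) :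
    ∃ B : ℕ, ∀ E : ℕ, ∃ N₀ : ℕ, ∀ N : ℕ, N₀ ≤ N →
      ∀ z : ℕ, Real.log N ^ B ≤ z → (z : ℝ) ≤ Real.log N ^ E →
      ∀ q : ℕ, 1 ≤ q → (q : ℝ) ≤ (N : ℝ) ^ (1 / 2 - ρ) → (q.divisors.card : ℝ) ≤ Real.log N ^ T →
      ∀ b : ℕ, (Nat.gcd b q : ℝ) ≤ Real.log N ^ T →
        (exceptions C N z q b : ℝ) ≤ N / (q * Real.log N ^ A) := by
  classical
  obtain ⟨B, hB⟩ := Pool.Agent.R460.SQ.fin_sq ρ hρ A C T
  refine ⟨B, fun E => ?_⟩
  obtain ⟨N₀, h⟩ := hB E
  refine ⟨N₀, fun N hN z hz1 hz2 q hq1 hqN hτ b hb => ?_⟩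
  have h1 := h N hN z hz1 hz2 q hq1 hqN hτ b hb
  refine le_trans (le_of_eq ?_) h1
  unfold exceptions
  have hr : ∀ n p : ℕ, roots n p = Pool.Agent.H373R2.T7.nuB (Pool.Agent.R460.SQ.QS 1 (n : ℤ)) p := by
    intro n p
    unfold roots Pool.Agent.H373R2.T7.nuB Pool.Agent.R460.SQ.QS
    have e : (range p).filter (fun m : ℕ => (p : ℤ) ∣ (n : ℤ) - (m : ℤ) ^ 2) =
        (range p).filter (fun m : ℕ => (p : ℤ) ∣ (n : ℤ) - 1 * (m : ℤ) ^ 2) := by
      apply filter_congr
      intro m _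
      rw [one_mul]
    rw [e]
    congr 1
    ext m
    simp only [mem_filter]
  have hs : ∀ n : ℕ, Sing n z = Pool.Agent.R460.SQ.Sz 1 (n : ℤ) z := by
    intro n
    rw [Pool.Agent.R460.SQ.Sz_prod]
    unfold Sing Pool.Agent.H373R2.T7.pz
    refine prod_congr rfl fun p _ => ?_
    rw [hr]
  have hg : ∀ n : ℕ, Good C N z n ↔ Pool.Agent.R460.SQ.GoodS C N z n := by
    intro n
    unfold Good Pool.Agent.R460.SQ.GoodS
    rw [hs]
    rfl
  congr 2
  ext n
  rw [mem_filter, mem_filter, hg]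

end Pool.Agent.Results.MP_d48457_nt.EveryModulus
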