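import Pool.Agent.R490.LGf

set_option autoImplicit false

/-!
# Almost all integers are the sum of a very small square and a product of at most three primes
-/

namespace Pool.Agent.Results.MP_d48457_nt.SmallSquaresAlmostPrimes

open Finset Filter

open Classical in
/-- the number of the `1 ≤ j ≤ T` such that `n - j ^ 2` is an integer `N ≥ 2` with at most `k` prime factors
(counted with multiplicity), all of them at least `w` -/
noncomputable def representations (n k : ℕ) (w T : ℝ) : ℕ :=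
  ((Icc 1 ⌊T⌋₊).filter (fun j : ℕ => ∃ N : ℕ, 2 ≤ N ∧ n = N + j ^ 2 ∧ N.primeFactorsList.length ≤ k ∧
    ∀ p : ℕ, p.Prime → p ∣ N → w ≤ p)).card

lemma cnt_le (n k : ℕ) (w T : ℝ) :
    R490.LGb.cnt (fun _ => 1) (fun j => -((j : ℤ) ^ 2)) k ⌊T⌋₊ n w ≤ representations n k w T := by
  classical
  unfold R490.LGb.cnt representations
  apply card_le_card
  intro j hj
  rw [mem_filter] at hj ⊢
  obtain ⟨h1, h2, h3, h4⟩ := hj
  refine ⟨h1, ?_⟩
  obtain ⟨N, hN⟩ : ∃ N : ℕ, (N : ℤ) = ((1 : ℕ) : ℤ) * n + -((j : ℤ) ^ 2) :=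
    ⟨(((1 : ℕ) : ℤ) * n + -((j : ℤ) ^ 2)).toNat, Int.toNat_of_nonneg (by linarith)⟩
  rw [← hN] at h2 h3 h4
  rw [Int.toNat_natCast] at h3
  refine ⟨N, by exact_mod_cast h2, ?_, h3, ?_⟩
  · have : (n : ℤ) = N + (j : ℤ) ^ 2 := by
      rw [hN]
      push_cast
      ring
    exact_mod_cast this
  · intro p hp hd
    exact h4 p hp (by exact_mod_cast hd)

/-- **Almost all integers are a very small square plus an almost prime.** -/
theorem result (θ ε : ℝ) (k : ℕ) (hθ : 0 < θ) (hθ1 : θ ≤ 1) (hk : 1 / 8 + 25 / (12 * θ) < k) (hε : 0 < ε) :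
    ∃ κ Λ : ℝ, 0 < κ ∧ 0 < Λ ∧ ∀ l : ℝ, Λ ≤ l → ∃ X₀ : ℕ, ∀ X : ℕ, X₀ ≤ X → ∀ Z L : ℕ,
      (X : ℝ) ^ θ ≤ L → Z + L ≤ X →
      (({n : ℕ | n ∈ Ioc Z (Z + L) ∧
        (representations n k ((X : ℝ) ^ (θ / 10)) (l * Real.log X) : ℝ) < κ * l} : Set ℕ).ncard : ℝ) ≤
        ε * L := by
  classical
  obtain ⟨κ, Λ, hκ, hΛ, h⟩ := R490.LGf.mainE θ ε k hθ hθ1 hk hε
  refine ⟨κ, Λ, hκ, hΛ, ?_⟩
  intro l hl
  obtain ⟨X₀, hX₀⟩ := eventually_atTop.1 (h l hl)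
  refine ⟨X₀, ?_⟩
  intro X hX Z L hL hZ
  have h3 := hX₀ X hX Z L hL hZ
  refine le_trans ?_ h3
  rw [← Set.ncard_coe_finset]
  have hsub : ({n : ℕ | n ∈ Ioc Z (Z + L) ∧
        (representations n k ((X : ℝ) ^ (θ / 10)) (l * Real.log X) : ℝ) < κ * l} : Set ℕ) ⊆
      (((Ioc Z (Z + L)).filter (fun n => R490.LGf.AdmT n ∧
        (R490.LGb.cnt (fun _ => 1) (fun j => -((j : ℤ) ^ 2)) k ⌊l * Real.log X⌋₊ n ((X : ℝ) ^ (θ / 10)) : ℝ) <
          κ * l)) : Finset ℕ) := by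
    intro n hn
    obtain ⟨a1, a2⟩ := hn
    rw [mem_coe, mem_filter]
    refine ⟨a1, trivial, ?_⟩
    have a3 : (R490.LGb.cnt (fun _ => 1) (fun j => -((j : ℤ) ^ 2)) k ⌊l * Real.log X⌋₊ n ((X : ℝ) ^ (θ / 10)) : ℝ) ≤
        representations n k ((X : ℝ) ^ (θ / 10)) (l * Real.log X) := by exact_mod_cast cnt_le n k _ _
    linarith
  have h4 := Set.ncard_le_ncard hsub (Finset.finite_toSet _)
  exact_mod_cast h4

end Pool.Agent.Results.MP_d48457_nt.SmallSquaresAlmostPrimes
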