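import Pool.Agent.Results.MP_d48457_nt.SquarePlusAlmostPrime
import Pool.Agent.R482.ST.Star

/-!
# A square plus an almost prime for all numbers near powers, orbits and other sequences

Let `f_n`, `n = 0, 1, 2, …`, be positive functions on `(a, ∞)`, `a ≥ 0`, such that `f_n(t) / t` is nondecreasing, and such
that the sequence `f_n(t)` has exponent of convergence at most `τ` for each `t > a`: for instance `f_n(t) = t ^ (v_n)` for
exponents `v_n ≥ 1` (`τ = 0`; all powers, the powers `t ^ (3 ^ n)` of Mills, …), the orbits `f_n(t) = g (g (⋯ g (t)))` of any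
map `g` with `g(t) > t` and `g(t) / t` nondecreasing (`τ = 0`; for instance of `t² + c`), and `f_n(t) = v_n t`.
Let `0 < u < 3 / 8`, `s = max (2 / 3) (4 u - 1 / 2)` and `θ < 1`. There is `δ > 0` such that for all `α > a` outside a set of
Hausdorff dimension at most `(s + ε + τ) / (1 - θ)`, each `c` and all but finitely many `n`, for ALL integers `N` with
`|N - f_n(α)| ≤ c f_n(α) ^ θ` there are at least `δ √N ∏_{p ≤ √N} (1 - ρ_N(p) / p)` integers `m ≥ 1` such that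
`N - m ^ 2 ≥ 2` has no prime factor below `N ^ u`. For `u = 1 / 3` the number `N - m ^ 2` is a prime or a product of two
primes, and the dimension is at most `(5 / 6 + ε + τ) / (1 - θ)`.
-/

set_option autoImplicit false

open Finset

namespace Pool.Agent.Results.MP_d48457_nt.StarshapedSquares

/-- the number of the residues `a` modulo `p` with `a ^ 2 ≡ N` -/
def rho (N p : ℕ) : ℕ := ((range p).filter (fun a : ℕ => (p : ℤ) ∣ (N : ℤ) - (a : ℤ) ^ 2)).card

/-- the proportion of the `m` with `N - m ^ 2` free of prime factors `≤ √N`, as predicted by the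
residue classes -/
noncomputable def dens (N : ℕ) : ℝ :=
  ∏ p ∈ (Icc 1 (Nat.sqrt N)).filter Nat.Prime, (1 - (rho N p : ℝ) / p)

open Classical in
/-- the number of the integers `m ≥ 1` such that `N - m ^ 2 ≥ 2` and all prime factors of `N - m ^ 2` are
at least `N ^ u` -/
noncomputable def sqCount (u : ℝ) (N : ℕ) : ℕ :=
  ((Icc 1 N).filter (fun m => m ^ 2 + 2 ≤ N ∧
    ∀ q : ℕ, q.Prime → q ∣ (N - m ^ 2) → (N : ℝ) ^ u ≤ q)).card

/-- the functions `f n` are positive on `(a, ∞)`, `a ≥ 0`, and `f n x / x` is nondecreasing there -/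
def Starshaped (a : ℝ) (f : ℕ → ℝ → ℝ) : Prop :=
  0 ≤ a ∧ ∀ n : ℕ, ∀ x y : ℝ, a < x → x ≤ y → 0 < f n x ∧ f n x / x ≤ f n y / y

/-- for each `x > a` the exponent of convergence of the sequence `f n x` is at most `τ` -/
def ExpLe (a : ℝ) (f : ℕ → ℝ → ℝ) (τ : ℝ) : Prop :=
  ∀ x : ℝ, a < x → ∀ t : ℝ, τ < t → Summable (fun n : ℕ => (f n x) ^ (-t))

open Classical in
lemma count (u ε : ℝ) (hu : 0 < u) (hu2 : u < 3 / 8) (hε : 0 < ε) : ∃ δ : ℝ, 0 < δ ∧ ∀ ε' : ℝ, 0 < ε' → ∃ C : ℝ,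
    ∀ X : ℕ, 1 ≤ X →
      (((Ioc 0 X).filter (fun N => N ∈ {N : ℕ | (sqCount u N : ℝ) < δ * (dens N * Real.sqrt N)})).card : ℝ) ≤
        C * (X : ℝ) ^ (max (2 / 3) (4 * u - 1 / 2) + ε + ε') := by
  obtain ⟨δ, C, hδ, hC, h⟩ := SquarePlusAlmostPrime.result u ε hu hu2 hε
  refine ⟨δ, hδ, fun ε' hε' => ⟨C, fun X hX => ?_⟩⟩
  have hX1 : (1 : ℝ) ≤ X := by exact_mod_cast hX
  have h1 := h X hX
  have hsub : (Ioc 0 X).filter (fun N => N ∈ {N : ℕ | (sqCount u N : ℝ) < δ * (dens N * Real.sqrt N)}) ⊆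
      (Icc 1 X).filter (fun N => (SquarePlusAlmostPrime.sqCount u N : ℝ) <
        δ * (SquarePlusAlmostPrime.dens N * Real.sqrt N)) := by
    intro t ht
    rw [mem_filter, mem_Ioc] at ht
    rw [mem_filter, mem_Icc]
    exact ⟨⟨ht.1.1, ht.1.2⟩, ht.2⟩
  calc _ ≤ (((Icc 1 X).filter (fun N => (SquarePlusAlmostPrime.sqCount u N : ℝ) <
        δ * (SquarePlusAlmostPrime.dens N * Real.sqrt N))).card : ℝ) := by
        exact_mod_cast Finset.card_le_card hsub
    _ ≤ C * (X : ℝ) ^ (max (2 / 3) (4 * u - 1 / 2) + ε) := by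
        convert h1 using 2
    _ ≤ C * (X : ℝ) ^ (max (2 / 3) (4 * u - 1 / 2) + ε + ε') := by
        apply mul_le_mul_of_nonneg_left _ hC.le
        apply Real.rpow_le_rpow_of_exponent_le hX1
        linarith

/-- **Theorem.** Let `0 < u < 3 / 8` and `ε > 0`. There is `δ > 0` such that for all starshaped functions `f` on `(a, ∞)` of
exponent of convergence at most `τ ≥ 0` and `θ < 1` there is a set `E` of Hausdorff dimension at most
`(max (2 / 3) (4 u - 1 / 2) + ε + τ) / (1 - θ)` such that for each `α > a` outside `E`, each `c` and all but finitely many `n`,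
for ALL integers `N` with `|N - f_n(α)| ≤ c f_n(α) ^ θ` there are at least `δ √N dens N` integers `m ≥ 1` such that
`N - m ^ 2 ≥ 2` has no prime factor below `N ^ u`. The functions `v_n x`, `v_n > 0`, are starshaped on `(0, ∞)`, of exponent `τ` if `v` has exponent of convergence at most
`τ`; the functions `x ^ (v_n)`, `v_n ≥ 1`, are starshaped on `(1, ∞)`, of exponent `0` if the sums of `exp (-t v_n)` converge
for `t > 0`; and the iterates of a map `g` with `g(x) > x` for `x > a` and `g(x) / x` nondecreasing are starshaped on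
`(a, ∞)`, of exponent `0`. -/
theorem result :
    (∀ u ε : ℝ, 0 < u → u < 3 / 8 → 0 < ε → ∃ δ : ℝ, 0 < δ ∧
      ∀ (a : ℝ) (f : ℕ → ℝ → ℝ) (τ θ : ℝ), Starshaped a f → 0 ≤ τ → ExpLe a f τ → θ < 1 →
      ∃ E : Set ℝ, dimH E ≤ ENNReal.ofReal ((max (2 / 3) (4 * u - 1 / 2) + ε + τ) / (1 - θ)) ∧
        ∀ α : ℝ, a < α → α ∉ E → ∀ c : ℝ, ∃ n₀ : ℕ, ∀ n : ℕ, n₀ ≤ n → ∀ N : ℕ,
          |(N : ℝ) - f n α| ≤ c * (f n α) ^ θ → δ * (dens N * Real.sqrt N) ≤ (sqCount u N : ℝ)) ∧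
    (∀ (v : ℕ → ℝ) (τ : ℝ), (∀ n, 0 < v n) → (∀ t : ℝ, τ < t → Summable (fun n : ℕ => (v n) ^ (-t))) →
      Starshaped 0 (fun n x => v n * x) ∧ ExpLe 0 (fun n x => v n * x) τ) ∧
    (∀ v : ℕ → ℝ, (∀ n, 1 ≤ v n) → (∀ t : ℝ, 0 < t → Summable fun n : ℕ => Real.exp (-(t * v n))) →
      Starshaped 1 (fun n x => x ^ (v n)) ∧ ExpLe 1 (fun n x => x ^ (v n)) 0) ∧
    (∀ (a : ℝ) (g : ℝ → ℝ), 0 ≤ a → (∀ x y : ℝ, a < x → x ≤ y → g x / x ≤ g y / y) → (∀ x : ℝ, a < x → x < g x) →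
      Starshaped a (fun n x => g^[n] x) ∧ ExpLe a (fun n x => g^[n] x) 0) := by
  refine ⟨fun u ε hu hu2 hε => ?_, Pool.Agent.R482.ST.ex_mul, Pool.Agent.R482.ST.ex_pow,
    Pool.Agent.R482.ST.ex_orbit⟩
  obtain ⟨δ, hδ, hcount⟩ := count u ε hu hu2 hε
  refine ⟨δ, hδ, fun a f τ θ hf hτ hE hθ1 => ?_⟩
  obtain ⟨E, h2, h3⟩ := Pool.Agent.R482.ST.win_nat {N : ℕ | (sqCount u N : ℝ) < δ * (dens N * Real.sqrt N)} hf hτ hE
    (s := max (2 / 3) (4 * u - 1 / 2) + ε) (by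
      have := le_max_left (2 / 3 : ℝ) (4 * u - 1 / 2)
      linarith) hθ1 hcount
  refine ⟨E, h2, fun α hα hαE c => ?_⟩
  obtain ⟨n₀, hn⟩ := h3 α hα hαE c
  refine ⟨n₀, fun n hn1 N hw => ?_⟩
  exact not_lt.1 (hn n hn1 N hw).2

end Pool.Agent.Results.MP_d48457_nt.StarshapedSquares
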